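import Pool.Agent.C748Z.Defs

/-!
The bound `|m(x)| ≤ C (L(x) E_A(x) + x^{-θ})` and the zeros of `ζ` (helper13): Landau's argument for
`1/ζ(1+w) = w ∫_1^∞ m(t) t^{-w-1} dt`.
-/

set_option autoImplicit false

open Filter Asymptotics Topology MeasureTheory Set

namespace Pool.Agent.C748Z

/-! ### the function `m` -/

lemma m_le (t : ℝ) (ht : 0 ≤ t) : |m t| ≤ t := by
  unfold m
  refine (Finset.abs_sum_le_sum_abs _ _).trans ?_
  have h1 : ∀ n ∈ Finset.Icc 1 ⌊t⌋₊, |(ArithmeticFunction.moebius n : ℝ) / n| ≤ 1 := by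
    intro n hn
    have hn1 : 1 ≤ n := (Finset.mem_Icc.1 hn).1
    have hn' : (1:ℝ) ≤ n := by exact_mod_cast hn1
    rw [abs_div, Nat.abs_cast]
    have h2 : |(ArithmeticFunction.moebius n : ℝ)| ≤ 1 := by
      exact_mod_cast ArithmeticFunction.abs_moebius_le_one (n := n)
    rw [div_le_one (by linarith)]
    linarith
  refine (Finset.sum_le_sum h1).trans ?_
  simp
  exact Nat.floor_le ht

lemma log_pow_little (N : ℕ) {s : ℝ} (hs : 0 < s) :
    (fun x : ℝ => Real.log x ^ N) =o[atTop] fun x : ℝ => x ^ s := by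
  have := isLittleO_log_rpow_rpow_atTop (N : ℝ) hs
  simpa using this

lemma m_meas : Measurable m := by
  have : m = (fun k : ℕ => ∑ n ∈ Finset.Icc 1 k, (ArithmeticFunction.moebius n : ℝ) / n) ∘
      (fun x : ℝ => ⌊x⌋₊) := rfl
  rw [this]
  exact (measurable_of_countable _).comp Nat.measurable_floor

/-- the integrand of the Mellin transform -/
noncomputable def f (t : ℝ) : ℂ := (Ioi (1:ℝ)).indicator (fun t => (m t : ℂ)) t

lemma f_norm_le (t : ℝ) : ‖f t‖ ≤ |m t| := by
  unfold f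
  refine (norm_indicator_le_norm_self _ _).trans ?_
  simp

lemma f_meas : Measurable f :=
  (Complex.measurable_ofReal.comp m_meas).indicator measurableSet_Ioi

section

variable {b : ℝ} {N : ℕ}

/-- global bound -/
lemma bounded (hb : b < 1) (hm : m =O[atTop] fun x : ℝ => x ^ (b - 1) * Real.log x ^ N) :
    ∃ M : ℝ, 0 ≤ M ∧ ∀ t, 0 ≤ t → |m t| ≤ M := by
  have h1 : (fun x : ℝ => x ^ (b - 1) * Real.log x ^ N) =O[atTop] fun _ : ℝ => (1:ℝ) := by
    have h2 : (fun x : ℝ => Real.log x ^ N) =o[atTop] fun x : ℝ => x ^ (1 - b) :=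
      log_pow_little N (by linarith)
    have h3 : (fun x : ℝ => x ^ (b - 1) * Real.log x ^ N) =O[atTop]
        fun x : ℝ => x ^ (b - 1) * x ^ (1 - b) := (isBigO_refl _ _).mul h2.isBigO
    refine h3.congr' EventuallyEq.rfl ?_
    filter_upwards [eventually_gt_atTop 0] with x hx
    rw [← Real.rpow_add hx]; simp
  obtain ⟨c, hc⟩ := (hm.trans h1).bound
  obtain ⟨T, hT⟩ := eventually_atTop.1 hc
  refine ⟨max |c| |T|, le_max_of_le_left (abs_nonneg _), fun t ht => ?_⟩
  rcases le_or_gt T t with h | h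
  · have := hT t h
    simp at this
    exact (this.trans (le_abs_self c)).trans (le_max_left _ _)
  · exact ((m_le t ht).trans (h.le.trans (le_abs_self T))).trans (le_max_right _ _)

lemma f_locInt (hb : b < 1) (hm : m =O[atTop] fun x : ℝ => x ^ (b - 1) * Real.log x ^ N) :
    LocallyIntegrableOn f (Ioi 0) := by
  obtain ⟨M, hM0, hM⟩ := bounded hb hm
  have h1 : LocallyIntegrable f := by
    refine (locallyIntegrable_const M).mono f_meas.aestronglyMeasurable (Eventually.of_forall ?_)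
    intro t
    rw [Real.norm_of_nonneg hM0]
    by_cases ht : t ∈ Ioi (1:ℝ)
    · exact (f_norm_le t).trans (hM t (by have : (1:ℝ) < t := ht; linarith))
    · unfold f; rw [indicator_of_notMem ht]; simpa using hM0
  exact h1.locallyIntegrableOn _

lemma f_top (hm : m =O[atTop] fun x : ℝ => x ^ (b - 1) * Real.log x ^ N)
    {a : ℝ} (ha : a < 1 - b) : f =O[atTop] fun t : ℝ => t ^ (-a) := by
  have h0 : f =O[atTop] m := IsBigO.of_bound 1 (Eventually.of_forall fun t => by
    rw [one_mul]; exact f_norm_le t)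
  refine (h0.trans hm).trans ?_
  have h2 : (fun x : ℝ => Real.log x ^ N) =o[atTop] fun x : ℝ => x ^ (1 - b - a) :=
    log_pow_little N (by linarith)
  have h3 : (fun x : ℝ => x ^ (b - 1) * Real.log x ^ N) =O[atTop]
      fun x : ℝ => x ^ (b - 1) * x ^ (1 - b - a) := (isBigO_refl _ _).mul h2.isBigO
  refine h3.congr' EventuallyEq.rfl ?_
  filter_upwards [eventually_gt_atTop 0] with x hx
  rw [← Real.rpow_add hx]; congr 1; ring

lemma f_bot (c : ℝ) : f =O[𝓝[>] 0] fun t : ℝ => t ^ (-c) := by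
  have : f =ᶠ[𝓝[>] 0] fun _ => (0:ℂ) := by
    have h1 : ∀ᶠ t : ℝ in 𝓝[>] 0, t < 1 :=
      (eventually_lt_nhds zero_lt_one).filter_mono nhdsWithin_le_nhds
    filter_upwards [h1] with t ht
    unfold f
    rw [indicator_of_notMem]
    simp only [mem_Ioi, not_lt]; exact ht.le
  exact this.trans_isBigO (isBigO_zero _ _)

/-- `w ∫_1^∞ m(t) t^{-w-1} dt` -/
noncomputable def G (w : ℂ) : ℂ := w * mellin f (-w)

lemma G_diff (hb : b < 1) (hm : m =O[atTop] fun x : ℝ => x ^ (b - 1) * Real.log x ^ N)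
    {w : ℂ} (hw : b - 1 < w.re) : DifferentiableAt ℂ G w := by
  have h1 : DifferentiableAt ℂ (mellin f) (-w) := by
    obtain ⟨a, ha1, ha2⟩ := exists_between (show (-w).re < 1 - b by simp; linarith)
    exact mellin_differentiableAt_of_isBigO_rpow (f_locInt hb hm) (f_top hm ha2) ha1
      (f_bot ((-w).re - 1)) (by linarith)
  have h2 : DifferentiableAt ℂ (fun w : ℂ => mellin f (-w)) w :=
    DifferentiableAt.comp (g := mellin f) w h1 (differentiableAt_id.neg)
  exact differentiableAt_id.mul h2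

lemma mellin_eq (w : ℂ) :
    mellin f (-w) = ∫ t in Ioi (1:ℝ), (m t : ℂ) * (t:ℂ) ^ (-(w + 1)) := by
  unfold mellin
  have h1 : ∀ t : ℝ, ((t:ℂ) ^ (-w - 1) • f t) =
      (Ioi (1:ℝ)).indicator (fun t => (m t : ℂ) * (t:ℂ) ^ (-(w + 1))) t := by
    intro t
    unfold f
    by_cases ht : t ∈ Ioi (1:ℝ)
    · rw [indicator_of_mem ht, indicator_of_mem ht, smul_eq_mul, mul_comm]
      congr 2; ring
    · rw [indicator_of_notMem ht, indicator_of_notMem ht, smul_zero]
  simp_rw [h1]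
  rw [setIntegral_indicator measurableSet_Ioi]
  congr 2
  ext t
  simp only [mem_inter_iff, mem_Ioi]
  constructor
  · rintro ⟨-, h⟩; exact h
  · intro h; exact ⟨by linarith, h⟩

lemma G_zeta_right (hb : b < 1) (hm : m =O[atTop] fun x : ℝ => x ^ (b - 1) * Real.log x ^ N)
    {w : ℂ} (hw : 0 < w.re) : G w * riemannZeta (1 + w) = 1 := by
  obtain ⟨M, hM0, hM⟩ := bounded hb hm
  have hterm : ∀ n : ℕ, LSeries.term (fun n : ℕ => (ArithmeticFunction.moebius n : ℂ) / n) w n =
      LSeries.term (fun n => (ArithmeticFunction.moebius n : ℂ)) (1 + w) n := by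
    intro n
    rcases eq_or_ne n 0 with rfl | hn
    · simp
    · have hn' : (n:ℂ) ≠ 0 := by exact_mod_cast hn
      rw [LSeries.term_of_ne_zero hn, LSeries.term_of_ne_zero hn, Complex.cpow_add _ _ hn',
        Complex.cpow_one, div_div]
  have h1w : 1 < (1 + w).re := by simp; exact hw
  have hsum : LSeriesSummable (fun n : ℕ => (ArithmeticFunction.moebius n : ℂ) / n) w := by
    have := ArithmeticFunction.LSeriesSummable_moebius_iff.2 h1w
    unfold LSeriesSummable at this ⊢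
    refine this.congr fun n => ?_
    rw [hterm]
  have hcast : ∀ k : ℕ, (∑ n ∈ Finset.Icc 1 k, (ArithmeticFunction.moebius n : ℂ) / n) =
      ((∑ n ∈ Finset.Icc 1 k, (ArithmeticFunction.moebius n : ℝ) / n : ℝ) : ℂ) := by
    intro k; push_cast; rfl
  have hO : (fun k : ℕ => ∑ n ∈ Finset.Icc 1 k, (ArithmeticFunction.moebius n : ℂ) / n)
      =O[atTop] fun n : ℕ => (n:ℝ) ^ (0:ℝ) := by
    refine IsBigO.of_bound M (Eventually.of_forall fun k => ?_)
    rw [hcast, Complex.norm_real, Real.norm_eq_abs]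
    have := hM k (Nat.cast_nonneg k)
    unfold m at this
    rw [Nat.floor_natCast] at this
    simpa using this
  have key := LSeries_eq_mul_integral (fun n : ℕ => (ArithmeticFunction.moebius n : ℂ) / n)
    le_rfl hw hsum hO
  have h2 : LSeries (fun n : ℕ => (ArithmeticFunction.moebius n : ℂ) / n) w =
      LSeries (fun n => (ArithmeticFunction.moebius n : ℂ)) (1 + w) := by
    unfold LSeries
    exact tsum_congr hterm
  have h3 : G w = LSeries (fun n => (ArithmeticFunction.moebius n : ℂ)) (1 + w) := by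
    rw [← h2, key, G, mellin_eq]
    congr 2
    ext t
    rw [hcast]; rfl
  rw [h3, ← ArithmeticFunction.LSeries_zeta_eq_riemannZeta h1w, mul_comm]
  exact ArithmeticFunction.LSeries_zeta_mul_Lseries_moebius h1w

lemma D_diff (hb : b < 1) (hm : m =O[atTop] fun x : ℝ => x ^ (b - 1) * Real.log x ^ N)
    {w : ℂ} (hw : b - 1 < w.re) (h0 : w ≠ 0) :
    DifferentiableAt ℂ (fun w => G w * riemannZeta (1 + w)) w := by
  refine (G_diff hb hm hw).mul ?_
  have h1 : DifferentiableAt ℂ riemannZeta (1 + w) :=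
    differentiableAt_riemannZeta (by simpa using h0)
  exact DifferentiableAt.comp (g := riemannZeta) w h1 (differentiableAt_id.const_add 1)

/-- the identity in an open convex set -/
lemma G_zeta_conv (hb : b < 1) (hm : m =O[atTop] fun x : ℝ => x ^ (b - 1) * Real.log x ^ N)
    {U : Set ℂ} (hU : IsOpen U) (hc : Convex ℝ U) (hUr : ∀ w ∈ U, b - 1 < w.re ∧ w ≠ 0)
    {w₀ : ℂ} (h0 : w₀ ∈ U) (h0' : 0 < w₀.re) {w : ℂ} (hw : w ∈ U) :
    G w * riemannZeta (1 + w) = 1 := by
  have hd : DifferentiableOn ℂ (fun w => G w * riemannZeta (1 + w)) U := fun w hw =>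
    (D_diff hb hm (hUr w hw).1 (hUr w hw).2).differentiableWithinAt
  have ha : AnalyticOnNhd ℂ (fun w => G w * riemannZeta (1 + w)) U := hd.analyticOnNhd hU
  have hev : (fun w => G w * riemannZeta (1 + w)) =ᶠ[𝓝 w₀] fun _ => (1:ℂ) := by
    have : {w : ℂ | 0 < w.re} ∈ 𝓝 w₀ :=
      (isOpen_lt continuous_const Complex.continuous_re).mem_nhds h0'
    filter_upwards [this] with w hw
    exact G_zeta_right hb hm hw
  exact ha.eqOn_of_preconnected_of_eventuallyEq analyticOnNhd_const hc.isPreconnected h0 hev hw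

lemma G_zeta (hb : b < 1) (hm : m =O[atTop] fun x : ℝ => x ^ (b - 1) * Real.log x ^ N)
    {w : ℂ} (hw : b - 1 < w.re) (h0 : w ≠ 0) : G w * riemannZeta (1 + w) = 1 := by
  have up : ∀ w : ℂ, b - 1 < w.re → 0 < w.im → G w * riemannZeta (1 + w) = 1 := by
    intro w hw hi
    refine G_zeta_conv hb hm (U := {w | b - 1 < w.re} ∩ {w | 0 < w.im}) ?_ ?_ ?_
      (w₀ := 1 + Complex.I) ?_ ?_ ⟨hw, hi⟩
    · exact (isOpen_lt continuous_const Complex.continuous_re).inter
        (isOpen_lt continuous_const Complex.continuous_im)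
    · exact (convex_halfSpace_re_gt _).inter (convex_halfSpace_im_gt _)
    · rintro w ⟨h1, h2⟩
      refine ⟨h1, ?_⟩
      rintro rfl; simp at h2
    · constructor
      · simp; linarith
      · simp
    · simp
  have down : ∀ w : ℂ, b - 1 < w.re → w.im < 0 → G w * riemannZeta (1 + w) = 1 := by
    intro w hw hi
    refine G_zeta_conv hb hm (U := {w | b - 1 < w.re} ∩ {w | w.im < 0}) ?_ ?_ ?_
      (w₀ := 1 - Complex.I) ?_ ?_ ⟨hw, hi⟩
    · exact (isOpen_lt continuous_const Complex.continuous_re).inter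
        (isOpen_lt Complex.continuous_im continuous_const)
    · exact (convex_halfSpace_re_gt _).inter (convex_halfSpace_im_lt _)
    · rintro w ⟨h1, h2⟩
      refine ⟨h1, ?_⟩
      rintro rfl; simp at h2
    · constructor
      · simp; linarith
      · simp
    · simp
  rcases lt_trichotomy w.im 0 with hi | hi | hi
  · exact down w hw hi
  · have hcont : ContinuousAt (fun w => G w * riemannZeta (1 + w)) w :=
      (D_diff hb hm hw h0).continuousAt
    have ht : Tendsto (fun e : ℝ => w + e * Complex.I) (𝓝[>] 0) (𝓝 w) := by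
      have : Continuous fun e : ℝ => w + e * Complex.I := by fun_prop
      have h := this.tendsto 0
      simp only [Complex.ofReal_zero, zero_mul, add_zero] at h
      exact h.mono_left nhdsWithin_le_nhds
    have h1 := hcont.tendsto.comp ht
    have h2 : Tendsto ((fun w => G w * riemannZeta (1 + w)) ∘ fun e : ℝ => w + e * Complex.I)
        (𝓝[>] 0) (𝓝 1) := by
      refine tendsto_const_nhds.congr' ?_
      filter_upwards [self_mem_nhdsWithin] with e he
      have he : 0 < e := he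
      symm
      refine up _ ?_ ?_
      · simpa using hw
      · simp [hi, he]
    exact tendsto_nhds_unique h1 h2
  · exact up w hw hi

/-- the size of the Mellin transform near the line -/
lemma mellin_norm (hb : b < 1) (hb0 : 0 ≤ b)
    (hm : m =O[atTop] fun x : ℝ => x ^ (b - 1) * Real.log x ^ N) {ε : ℝ} (hε : 0 < ε)
    (hmε : ∀ᶠ x in atTop, ‖m x‖ ≤ ε * ‖x ^ (b - 1) * Real.log x ^ N‖) :
    ∃ K : ℝ, 0 ≤ K ∧ ∀ h : ℝ, 0 < h → ∀ w : ℂ, w.re = b - 1 + h →
      ‖mellin f (-w)‖ ≤ ε * (2 * N / h) ^ N * (2 / h) + K := by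
  obtain ⟨M, hM0, hM⟩ := bounded hb hm
  obtain ⟨T, hT⟩ := eventually_atTop.1 hmε
  set T' : ℝ := max T 1 with hT'
  have hT1 : 1 ≤ T' := le_max_right _ _
  refine ⟨M * T' ^ 2, by positivity, ?_⟩
  intro h hh w hw
  have hmt : ∀ t : ℝ, 1 < t → |m t| ≤ ε * (t ^ (b - 1) * Real.log t ^ N) + M * T' ^ 2 * t ^ (b - 2) := by
    intro t ht
    have ht0 : 0 < t := by linarith
    have hlog : 0 ≤ Real.log t := Real.log_nonneg ht.le
    rcases le_or_gt T' t with h1 | h1
    · have h2 := hT t ((le_max_left _ _).trans h1)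
      rw [Real.norm_eq_abs, Real.norm_of_nonneg (by positivity)] at h2
      have : 0 ≤ M * T' ^ 2 * t ^ (b - 2) := by positivity
      linarith
    · have h2 : 1 ≤ T' ^ 2 * t ^ (b - 2) := by
        have h3 : T' ^ (-(2:ℝ)) ≤ t ^ (b - 2) := by
          calc T' ^ (-(2:ℝ)) ≤ t ^ (-(2:ℝ)) := by
                rw [Real.rpow_neg (by linarith), Real.rpow_neg ht0.le]
                gcongr
            _ ≤ t ^ (b - 2) := Real.rpow_le_rpow_of_exponent_le ht.le (by linarith)
        have h4 : T' ^ 2 * T' ^ (-(2:ℝ)) = 1 := by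
          rw [Real.rpow_neg (by linarith), Real.rpow_two]
          field_simp
        calc (1:ℝ) = T' ^ 2 * T' ^ (-(2:ℝ)) := h4.symm
          _ ≤ _ := by gcongr
      have h5 := hM t ht0.le
      have h6 : M ≤ M * T' ^ 2 * t ^ (b - 2) := by
        rw [mul_assoc]; exact le_mul_of_one_le_right hM0 h2
      have : 0 ≤ ε * (t ^ (b - 1) * Real.log t ^ N) := by positivity
      linarith
  have hlogN : ∀ t : ℝ, 1 < t → Real.log t ^ N ≤ (2 * N / h) ^ N * t ^ (h / 2) := by
    intro t ht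
    have ht0 : 0 < t := by linarith
    rcases Nat.eq_zero_or_pos N with rfl | hN
    · simp; exact Real.one_le_rpow ht.le (by positivity)
    · have hN' : (0:ℝ) < N := by exact_mod_cast hN
      have h1 := Real.log_le_rpow_div ht0.le (show 0 < h / (2 * N) by positivity)
      have h2 : Real.log t ^ N ≤ (t ^ (h / (2 * N)) / (h / (2 * N))) ^ N :=
        pow_le_pow_left₀ (Real.log_nonneg ht.le) h1 N
      refine h2.trans (le_of_eq ?_)
      rw [div_pow, ← Real.rpow_natCast (t ^ (h / (2 * N))), ← Real.rpow_mul ht0.le]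
      have h3 : h / (2 * N) * N = h / 2 := by field_simp
      rw [h3, div_eq_mul_inv, mul_comm, ← inv_pow, inv_div]
  have hint1 : IntegrableOn (fun t : ℝ => t ^ (-1 - h / 2)) (Ioi 1) :=
    integrableOn_Ioi_rpow_of_lt (by linarith) one_pos
  have hint2 : IntegrableOn (fun t : ℝ => t ^ (-2 : ℝ)) (Ioi 1) :=
    integrableOn_Ioi_rpow_of_lt (by norm_num) one_pos
  rw [mellin_eq]
  have hg : IntegrableOn (fun t : ℝ => ε * (2 * N / h) ^ N * t ^ (-1 - h / 2) +
      M * T' ^ 2 * t ^ (-2 : ℝ)) (Ioi 1) := (hint1.const_mul _).add (hint2.const_mul _)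
  refine (norm_integral_le_of_norm_le hg ?_).trans ?_
  · refine (ae_restrict_iff' measurableSet_Ioi).2 (Eventually.of_forall fun t ht => ?_)
    have ht : (1:ℝ) < t := ht
    have ht0 : 0 < t := by linarith
    rw [norm_mul, Complex.norm_real, Real.norm_eq_abs, Complex.norm_cpow_eq_rpow_re_of_pos ht0]
    have hre : (-(w + 1)).re = -b - h := by simp [hw]; ring
    rw [hre]
    have h1 := hmt t ht
    have h2 := hlogN t ht
    have hp : 0 < t ^ (-b - h) := Real.rpow_pos_of_pos ht0 _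
    have e1 : t ^ (b - 1) * t ^ (h / 2) * t ^ (-b - h) = t ^ (-1 - h / 2) := by
      rw [← Real.rpow_add ht0, ← Real.rpow_add ht0]; congr 1; ring
    have e2 : t ^ (b - 2) * t ^ (-b - h) ≤ t ^ (-2 : ℝ) := by
      rw [← Real.rpow_add ht0]
      exact Real.rpow_le_rpow_of_exponent_le ht.le (by linarith)
    calc |m t| * t ^ (-b - h)
        ≤ (ε * (t ^ (b - 1) * ((2 * N / h) ^ N * t ^ (h / 2))) + M * T' ^ 2 * t ^ (b - 2)) *
          t ^ (-b - h) := by
          gcongr
          refine h1.trans ?_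
          gcongr
      _ = ε * (2 * N / h) ^ N * (t ^ (b - 1) * t ^ (h / 2) * t ^ (-b - h)) +
          M * T' ^ 2 * (t ^ (b - 2) * t ^ (-b - h)) := by ring
      _ ≤ _ := by rw [e1]; gcongr
  · rw [integral_add (hint1.const_mul _) (hint2.const_mul _), integral_const_mul,
      integral_const_mul, integral_Ioi_rpow_of_lt (by linarith) one_pos,
      integral_Ioi_rpow_of_lt (by norm_num) one_pos]
    have e1 : -(1:ℝ) ^ (-1 - h / 2 + 1) / (-1 - h / 2 + 1) = 2 / h := by
      rw [Real.one_rpow, show -1 - h / 2 + 1 = -(h / 2) by ring]; field_simp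
    have e2 : -(1:ℝ) ^ ((-2:ℝ) + 1) / (-2 + 1) = 1 := by
      rw [Real.one_rpow]; norm_num
    rw [e1, e2, mul_one]

theorem order_le (hb : b < 1) (hb0 : 0 ≤ b)
    (hm : m =o[atTop] fun x : ℝ => x ^ (b - 1) * Real.log x ^ N) {ρ : ℂ} (hρ : ρ.re = b) :
    analyticOrderAt riemannZeta ρ ≤ N := by
  have hρ1 : ρ ≠ 1 := by rintro rfl; simp at hρ; linarith
  have hana : AnalyticAt ℂ riemannZeta ρ := by
    have : DifferentiableOn ℂ riemannZeta {(1:ℂ)}ᶜ := fun s hs =>
      (differentiableAt_riemannZeta hs).differentiableWithinAt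
    exact this.analyticAt (isOpen_compl_singleton.mem_nhds hρ1)
  by_contra hcon
  have hN : ((N + 1 : ℕ) : ℕ∞) ≤ analyticOrderAt riemannZeta ρ := by
    push_cast
    exact Order.add_one_le_of_lt (not_le.1 hcon)
  obtain ⟨g, hg, hgz⟩ := (natCast_le_analyticOrderAt hana).1 hN
  -- along the horizontal line
  have ht : Tendsto (fun h : ℝ => ρ + h) (𝓝[>] 0) (𝓝 ρ) := by
    have : Continuous fun h : ℝ => ρ + (h:ℂ) := by fun_prop
    have h := this.tendsto 0
    simp only [Complex.ofReal_zero, add_zero] at h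
    exact h.mono_left nhdsWithin_le_nhds
  have hgb : ∀ᶠ h : ℝ in 𝓝[>] 0, ‖g (ρ + h)‖ ≤ ‖g ρ‖ + 1 := by
    have h1 : Tendsto (fun h : ℝ => ‖g (ρ + h)‖) (𝓝[>] 0) (𝓝 ‖g ρ‖) :=
      (hg.continuousAt.tendsto.comp ht).norm
    filter_upwards [h1.eventually (eventually_le_nhds (lt_add_one _))] with h hh using hh
  set W : ℝ := (‖ρ - 1‖ + 1) * (‖g ρ‖ + 1) with hW
  have hWpos : 0 < W := by positivity
  set c : ℝ := (2 * N) ^ N * 2 with hc
  have hcpos : 0 ≤ c := by positivity
  set ε : ℝ := 1 / (4 * (W * (c + 1))) with hεdef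
  have hε : 0 < ε := by positivity
  obtain ⟨K, hK0, hK⟩ := mellin_norm hb hb0 hm.isBigO hε (hm.bound hε)
  have hsmall : ∀ᶠ h : ℝ in 𝓝[>] 0, W * (K * h ^ (N + 1)) < 1 / 4 := by
    have : Tendsto (fun h : ℝ => W * (K * h ^ (N + 1))) (𝓝[>] 0) (𝓝 0) := by
      have h1 : Continuous fun h : ℝ => W * (K * h ^ (N + 1)) := by fun_prop
      have h2 := h1.tendsto 0
      simp at h2
      exact h2.mono_left nhdsWithin_le_nhds
    exact this.eventually (gt_mem_nhds (by norm_num))
  have hlt1 : ∀ᶠ h : ℝ in 𝓝[>] 0, h < min 1 (1 - b) :=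
    (eventually_lt_nhds (lt_min one_pos (by linarith))).filter_mono nhdsWithin_le_nhds
  obtain ⟨h, hpos, hgh, hsm, hl, hzh⟩ : ∃ h : ℝ, 0 < h ∧ ‖g (ρ + h)‖ ≤ ‖g ρ‖ + 1 ∧
      W * (K * h ^ (N + 1)) < 1 / 4 ∧ h < min 1 (1 - b) ∧
      riemannZeta (ρ + h) = (ρ + h - ρ) ^ (N + 1) • g (ρ + h) := by
    have := (((hgb.and hsmall).and hlt1).and (ht.eventually hgz)).and
      (self_mem_nhdsWithin : Ioi (0:ℝ) ∈ 𝓝[>] 0)
    obtain ⟨h, ⟨⟨⟨h1, h2⟩, h3⟩, h4⟩, h5⟩ := this.exists
    exact ⟨h, h5, h1, h2, h3, h4⟩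
  have hh1 : h < 1 := hl.trans_le (min_le_left _ _)
  have hh2 : h < 1 - b := hl.trans_le (min_le_right _ _)
  set w : ℂ := ρ - 1 + h with hw
  have hwre : w.re = b - 1 + h := by simp [hw, hρ]
  have hw0 : w ≠ 0 := by
    intro h0
    rw [h0] at hwre
    simp at hwre
    linarith
  have hid := G_zeta hb hm.isBigO (w := w) (by rw [hwre]; linarith) hw0
  have h1w : 1 + w = ρ + h := by rw [hw]; ring
  rw [h1w, hzh, G] at hid
  have hnorm := congrArg norm hid
  rw [norm_mul, norm_mul, norm_smul, norm_one] at hnorm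
  have e1 : ‖(ρ + h - ρ) ^ (N + 1)‖ = h ^ (N + 1) := by
    rw [norm_pow]; congr 1
    simp [abs_of_pos hpos]
  rw [e1] at hnorm
  have hwn : ‖w‖ ≤ ‖ρ - 1‖ + 1 := by
    rw [hw]
    refine (norm_add_le _ _).trans ?_
    gcongr
    rw [Complex.norm_real, Real.norm_of_nonneg hpos.le]
    exact hh1.le
  have hmel := hK h hpos w hwre
  have e2 : (ε * (2 * N / h) ^ N * (2 / h) + K) * h ^ (N + 1) = ε * c + K * h ^ (N + 1) := by
    rw [hc, div_pow, pow_succ]
    field_simp
  have hfin : (1:ℝ) ≤ W * (ε * c + K * h ^ (N + 1)) := by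
    calc (1:ℝ) = ‖w‖ * ‖mellin f (-w)‖ * (h ^ (N + 1) * ‖g (ρ + h)‖) := hnorm.symm
      _ ≤ (‖ρ - 1‖ + 1) * (ε * (2 * N / h) ^ N * (2 / h) + K) *
          (h ^ (N + 1) * (‖g ρ‖ + 1)) := by
          gcongr
      _ = W * ((ε * (2 * N / h) ^ N * (2 / h) + K) * h ^ (N + 1)) := by rw [hW]; ring
      _ = _ := by rw [e2]
  have hεc : W * (ε * c) ≤ 1 / 4 := by
    rw [hεdef]
    have : W * (1 / (4 * (W * (c + 1))) * c) = (c / (c + 1)) / 4 := by
      field_simp
    rw [this]
    have : c / (c + 1) ≤ 1 := (div_le_one (by linarith)).2 (by linarith)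
    linarith
  have : W * (ε * c + K * h ^ (N + 1)) = W * (ε * c) + W * (K * h ^ (N + 1)) := by ring
  linarith

/-- a lower bound for `ζ` to the right of the line -/
theorem lower (hb : b < 1) (hb0 : 0 ≤ b)
    (hm : m =O[atTop] fun x : ℝ => x ^ (b - 1) * Real.log x ^ N) :
    ∃ c > 0, ∀ s : ℂ, b < s.re → s.re ≤ b + 1 → s ≠ 1 →
      c * (s.re - b) ^ (N + 1) ≤ ‖(s - 1) * riemannZeta s‖ := by
  obtain ⟨e, he, hme⟩ := hm.exists_pos
  obtain ⟨K, hK0, hK⟩ := mellin_norm hb hb0 hm he hme.bound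
  set D : ℝ := e * ((2 * N) ^ N * 2) + K with hD
  have hD0 : 0 < D := by
    rcases Nat.eq_zero_or_pos N with rfl | hN
    · rw [hD]; simp; positivity
    · have : (0:ℝ) < N := by exact_mod_cast hN
      positivity
  refine ⟨1 / D, by positivity, ?_⟩
  intro s hs hs1 hne
  obtain ⟨h, hh⟩ : ∃ h, h = s.re - b := ⟨_, rfl⟩
  have hpos : 0 < h := by linarith
  have hle : h ≤ 1 := by linarith
  have hwre : (s - 1).re = b - 1 + h := by simp [hh]
  have hid := G_zeta hb hm (w := s - 1) (by rw [hwre]; linarith) (sub_ne_zero.2 hne)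
  rw [add_sub_cancel, G] at hid
  have hnorm := congrArg norm hid
  rw [norm_mul, norm_mul, norm_one] at hnorm
  have hmel := hK h hpos (s - 1) hwre
  have e2 : (e * (2 * N / h) ^ N * (2 / h) + K) * h ^ (N + 1) ≤ D := by
    have e3 : (e * (2 * N / h) ^ N * (2 / h) + K) * h ^ (N + 1) =
        e * ((2 * N) ^ N * 2) + K * h ^ (N + 1) := by
      rw [div_pow, pow_succ]
      field_simp
    rw [e3, hD]
    have : h ^ (N + 1) ≤ 1 := pow_le_one₀ hpos.le hle
    nlinarith
  rw [← hh, norm_mul, div_mul_eq_mul_div, one_mul, div_le_iff₀ hD0]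
  calc h ^ (N + 1) = (‖s - 1‖ * ‖mellin f (-(s - 1))‖ * ‖riemannZeta s‖) * h ^ (N + 1) := by
        rw [hnorm, one_mul]
    _ ≤ (‖s - 1‖ * (e * (2 * N / h) ^ N * (2 / h) + K) * ‖riemannZeta s‖) * h ^ (N + 1) := by
        gcongr
    _ = ‖s - 1‖ * ‖riemannZeta s‖ * ((e * (2 * N / h) ^ N * (2 / h) + K) * h ^ (N + 1)) := by ring
    _ ≤ _ := by gcongr

/-- the derivative at a zero on the line -/
theorem deriv_ge {c : ℝ} {ρ : ℂ} (hb : b < 1) (hρ : ρ.re = b) (hz : riemannZeta ρ = 0)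
    (h : ∀ s : ℂ, b < s.re → s.re ≤ b + 1 → s ≠ 1 →
      c * (s.re - b) ≤ ‖(s - 1) * riemannZeta s‖) :
    c ≤ ‖(ρ - 1) * deriv riemannZeta ρ‖ := by
  have hρ1 : ρ ≠ 1 := by rintro rfl; simp at hρ; linarith
  have hd : HasDerivAt riemannZeta (deriv riemannZeta ρ) ρ :=
    (differentiableAt_riemannZeta hρ1).hasDerivAt
  have hsl := hasDerivAt_iff_tendsto_slope.1 hd
  have ht : Tendsto (fun h : ℝ => ρ + h) (𝓝[>] 0) (𝓝 ρ) := by
    have : Continuous fun h : ℝ => ρ + (h:ℂ) := by fun_prop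
    have h := this.tendsto 0
    simp only [Complex.ofReal_zero, add_zero] at h
    exact h.mono_left nhdsWithin_le_nhds
  have ht' : Tendsto (fun h : ℝ => ρ + h) (𝓝[>] 0) (𝓝[≠] ρ) := by
    refine tendsto_nhdsWithin_iff.2 ⟨ht, ?_⟩
    filter_upwards [self_mem_nhdsWithin] with h hh
    have hh : 0 < h := hh
    simp only [mem_compl_iff, mem_singleton_iff, add_eq_left, Complex.ofReal_eq_zero]
    exact hh.ne'
  have h1 : Tendsto (fun h : ℝ => ‖(ρ + h - 1) * slope riemannZeta ρ (ρ + h)‖) (𝓝[>] 0)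
      (𝓝 ‖(ρ - 1) * deriv riemannZeta ρ‖) :=
    ((ht.sub_const 1).mul (hsl.comp ht')).norm
  refine ge_of_tendsto h1 ?_
  have hlt1 : ∀ᶠ h : ℝ in 𝓝[>] 0, h < min 1 (1 - b) :=
    (eventually_lt_nhds (lt_min one_pos (by linarith))).filter_mono nhdsWithin_le_nhds
  filter_upwards [self_mem_nhdsWithin, hlt1] with t ht0 htl
  have ht0 : 0 < t := ht0
  have hl1 : t < 1 := htl.trans_le (min_le_left _ _)
  have hl2 : t < 1 - b := htl.trans_le (min_le_right _ _)
  have hre : (ρ + t).re = b + t := by simp [hρ]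
  have hne : ρ + (t:ℂ) ≠ 1 := by
    intro h0
    rw [h0] at hre
    simp at hre
    linarith
  have h2 := h (ρ + t) (by rw [hre]; linarith) (by rw [hre]; linarith) hne
  rw [hre] at h2
  rw [slope_def_module, hz, sub_zero, smul_eq_mul, norm_mul, norm_mul, norm_inv]
  have e1 : ‖ρ + (t:ℂ) - ρ‖ = t := by
    rw [add_sub_cancel_left, Complex.norm_real, Real.norm_of_nonneg ht0.le]
  rw [e1]
  rw [norm_mul] at h2
  have e2 : ‖ρ + (t:ℂ) - 1‖ * (t⁻¹ * ‖riemannZeta (ρ + t)‖) =
      (‖ρ + (t:ℂ) - 1‖ * ‖riemannZeta (ρ + t)‖) / t := by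
    field_simp
  rw [e2, le_div_iff₀ ht0]
  have e3 : b + t - b = t := by ring
  rw [e3] at h2
  exact h2

end

/-! ### from the local bound to the size of `m` -/

lemma E_nonneg {A x : ℝ} (hA : 0 < A) (hx : 0 < x) : 0 ≤ E A x := by
  refine Real.sSup_nonneg ?_
  rintro _ ⟨y, hy, rfl⟩
  have : 0 < y := (div_pos hx hA).trans hy.1
  simp only
  positivity

lemma E_le {b : ℝ} {A : ℝ → ℝ} {j : ℕ} (hA : ∀ᶠ x in atTop, 1 < A x ∧ A x ^ 2 ≤ x) (hb : b < 1)
    (hpsi : (fun x => psi x - x) =O[atTop] fun x : ℝ => x ^ b * Real.log x ^ j) :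
    ∃ K : ℝ, 0 ≤ K ∧ ∀ᶠ x in atTop,
      E (A x) x ≤ K * (A x ^ (1 - b) * (x ^ (b - 1) * Real.log x ^ j)) := by
  obtain ⟨c, hc⟩ := hpsi.bound
  obtain ⟨T, hT⟩ := eventually_atTop.1 hc
  refine ⟨|c| * 2 ^ j, by positivity, ?_⟩
  filter_upwards [hA, eventually_ge_atTop ((max T 1) ^ 2)] with x hAx hx1
  obtain ⟨hA1, hA2⟩ := hAx
  have hA0 : 0 < A x := by linarith
  have hT1 : 1 ≤ max T 1 := le_max_right _ _
  have hx0 : 0 < x := by nlinarith
  have hlow : max T 1 ≤ x / A x := by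
    rw [le_div_iff₀ hA0]
    by_contra hcon
    rw [not_le] at hcon
    nlinarith [sq_nonneg (max T 1 - A x)]
  refine csSup_le ?_ ?_
  · refine Set.Nonempty.image _ ⟨x * A x, ?_, le_rfl⟩
    calc x / A x < x := div_lt_self hx0 hA1
      _ < x * A x := lt_mul_of_one_lt_right hx0 hA1
  · rintro _ ⟨y, ⟨hy1, hy2⟩, rfl⟩
    have hy3 : max T 1 < y := lt_of_le_of_lt hlow hy1
    have hyT : T ≤ y := (le_max_left _ _).trans hy3.le
    have hy4 : 1 < y := (le_max_right _ _).trans_lt hy3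
    have hy0 : 0 < y := by linarith
    have h1 := hT y hyT
    rw [Real.norm_eq_abs] at h1
    have hlogy : 0 ≤ Real.log y := Real.log_nonneg hy4.le
    rw [Real.norm_of_nonneg (by positivity)] at h1
    have hlog : Real.log y ≤ 2 * Real.log x := by
      have h2 : y ≤ x ^ 2 := by nlinarith
      have h3 := Real.log_le_log hy0 h2
      rw [Real.log_pow] at h3
      exact_mod_cast h3
    have hyb : y ^ (b - 1) ≤ A x ^ (1 - b) * x ^ (b - 1) := by
      have h2 : y ^ (b - 1) ≤ (x / A x) ^ (b - 1) :=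
        Real.rpow_le_rpow_of_nonpos (div_pos hx0 hA0) hy1.le (by linarith)
      refine h2.trans (le_of_eq ?_)
      rw [Real.div_rpow hx0.le hA0.le, show (1 - b) = -(b - 1) by ring, Real.rpow_neg hA0.le]
      field_simp
    simp only
    rw [div_le_iff₀ hy0]
    have e1 : y ^ b = y ^ (b - 1) * y := by
      rw [← Real.rpow_add_one hy0.ne']; congr 1; ring
    calc |psi y - y| ≤ c * (y ^ b * Real.log y ^ j) := h1
      _ ≤ |c| * (y ^ b * Real.log y ^ j) := by gcongr; exact le_abs_self c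
      _ = |c| * (y ^ (b - 1) * Real.log y ^ j) * y := by rw [e1]; ring
      _ ≤ |c| * ((A x ^ (1 - b) * x ^ (b - 1)) * (2 * Real.log x) ^ j) * y := by gcongr
      _ = |c| * 2 ^ j * (A x ^ (1 - b) * (x ^ (b - 1) * Real.log x ^ j)) * y := by
          rw [mul_pow]; ring

lemma E_big {b : ℝ} {A : ℝ → ℝ} {j : ℕ} (hA : ∀ᶠ x in atTop, 1 < A x ∧ A x ^ 2 ≤ x) (hb : b < 1)
    (hpsi : (fun x => psi x - x) =O[atTop] fun x : ℝ => x ^ b * Real.log x ^ j) :
    (fun x => E (A x) x) =O[atTop]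
      fun x : ℝ => A x ^ (1 - b) * (x ^ (b - 1) * Real.log x ^ j) := by
  obtain ⟨K, hK0, hK⟩ := E_le hA hb hpsi
  refine IsBigO.of_bound K ?_
  filter_upwards [hK, hA, eventually_gt_atTop 1] with x hx hAx hx1
  have hA0 : 0 < A x := by linarith [hAx.1]
  rw [Real.norm_of_nonneg (E_nonneg hA0 (by linarith)),
    Real.norm_of_nonneg (by have := Real.log_nonneg hx1.le; positivity)]
  exact hx

lemma m_little {θ b : ℝ} {k j : ℕ} {A L : ℝ → ℝ} (hA : ∀ᶠ x in atTop, 1 < A x ∧ A x ^ 2 ≤ x)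
    (hb : b < 1) (hθ : 1 - θ ≤ b) (hk : 1 ≤ k)
    (hL : (fun x => L x * A x ^ (1 - b)) =o[atTop] fun x => Real.log x ^ k)
    (hpsi : (fun x => psi x - x) =O[atTop] fun x : ℝ => x ^ b * Real.log x ^ j)
    (hB : Bound A θ L) :
    m =o[atTop] fun x : ℝ => x ^ (b - 1) * Real.log x ^ (k + j) := by
  obtain ⟨C, hC, x₀, hx₀⟩ := hB
  have h1 : (fun x => L x * E (A x) x) =o[atTop]
      fun x : ℝ => x ^ (b - 1) * Real.log x ^ (k + j) := by
    have h0 : (fun x => L x * E (A x) x) =O[atTop]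
        fun x : ℝ => (L x * A x ^ (1 - b)) * (x ^ (b - 1) * Real.log x ^ j) := by
      refine ((isBigO_refl L atTop).mul (E_big hA hb hpsi)).congr' EventuallyEq.rfl
        (Eventually.of_forall fun x => ?_)
      simp only
      ring
    refine h0.trans_isLittleO ?_
    refine (hL.mul_isBigO (isBigO_refl _ _)).congr' EventuallyEq.rfl
      (Eventually.of_forall fun x => ?_)
    simp only
    rw [pow_add]; ring
  have h2 : (fun x : ℝ => x ^ (-θ)) =o[atTop] fun x : ℝ => x ^ (b - 1) * Real.log x ^ (k + j) := by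
    have h3 : (fun x : ℝ => x ^ (-θ)) =O[atTop] fun x : ℝ => x ^ (b - 1) := by
      refine IsBigO.of_bound 1 ?_
      filter_upwards [eventually_ge_atTop 1] with x hx
      rw [one_mul, Real.norm_of_nonneg (by positivity), Real.norm_of_nonneg (by positivity)]
      exact Real.rpow_le_rpow_of_exponent_le hx (by linarith)
    have h4 : (fun _ : ℝ => (1:ℝ)) =o[atTop] fun x : ℝ => Real.log x ^ (k + j) := by
      rw [isLittleO_one_left_iff]
      have : Tendsto (fun x : ℝ => Real.log x ^ (k + j)) atTop atTop :=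
        (tendsto_pow_atTop (by omega)).comp Real.tendsto_log_atTop
      exact tendsto_norm_atTop_atTop.comp this
    simpa using h3.mul_isLittleO h4
  have h3 : m =O[atTop] fun x => L x * E (A x) x + x ^ (-θ) := by
    refine IsBigO.of_bound C ?_
    filter_upwards [eventually_ge_atTop x₀] with x hx
    rw [Real.norm_eq_abs, Real.norm_eq_abs]
    refine (hx₀ x hx).trans ?_
    gcongr
    exact le_abs_self _
  exact h3.trans_isLittleO (h1.add h2)

lemma m_big {θ b : ℝ} {k j : ℕ} {A L : ℝ → ℝ} (hA : ∀ᶠ x in atTop, 1 < A x ∧ A x ^ 2 ≤ x)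
    (hb : b < 1) (hθ : 1 - θ ≤ b)
    (hL : (fun x => L x * A x ^ (1 - b)) =O[atTop] fun x => Real.log x ^ k)
    (hpsi : (fun x => psi x - x) =O[atTop] fun x : ℝ => x ^ b * Real.log x ^ j)
    (hB : Bound A θ L) :
    m =O[atTop] fun x : ℝ => x ^ (b - 1) * Real.log x ^ (k + j) := by
  obtain ⟨C, hC, x₀, hx₀⟩ := hB
  have h1 : (fun x => L x * E (A x) x) =O[atTop]
      fun x : ℝ => x ^ (b - 1) * Real.log x ^ (k + j) := by
    have h0 : (fun x => L x * E (A x) x) =O[atTop]
        fun x : ℝ => (L x * A x ^ (1 - b)) * (x ^ (b - 1) * Real.log x ^ j) := by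
      refine ((isBigO_refl L atTop).mul (E_big hA hb hpsi)).congr' EventuallyEq.rfl
        (Eventually.of_forall fun x => ?_)
      simp only
      ring
    refine h0.trans ?_
    refine (hL.mul (isBigO_refl _ _)).congr' EventuallyEq.rfl (Eventually.of_forall fun x => ?_)
    simp only
    rw [pow_add]; ring
  have h2 : (fun x : ℝ => x ^ (-θ)) =O[atTop] fun x : ℝ => x ^ (b - 1) * Real.log x ^ (k + j) := by
    refine IsBigO.of_bound 1 ?_
    filter_upwards [eventually_ge_atTop (Real.exp 1)] with x hx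
    have hx1 : 1 ≤ x := (by have := Real.add_one_le_exp (1:ℝ); linarith)
    have hlog : 1 ≤ Real.log x := by
      rw [Real.le_log_iff_exp_le (by linarith)]; exact hx
    rw [one_mul, Real.norm_of_nonneg (by positivity), Real.norm_of_nonneg (by positivity)]
    calc x ^ (-θ) ≤ x ^ (b - 1) := Real.rpow_le_rpow_of_exponent_le hx1 (by linarith)
      _ ≤ x ^ (b - 1) * Real.log x ^ (k + j) :=
        le_mul_of_one_le_right (by positivity) (one_le_pow₀ hlog)
  have h3 : m =O[atTop] fun x => L x * E (A x) x + x ^ (-θ) := by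
    refine IsBigO.of_bound C ?_
    filter_upwards [eventually_ge_atTop x₀] with x hx
    rw [Real.norm_eq_abs, Real.norm_eq_abs]
    refine (hx₀ x hx).trans ?_
    gcongr
    exact le_abs_self _
  exact h3.trans (h1.add h2)

lemma const_window {A : ℝ} (hA : 1 < A) : ∀ᶠ x in atTop, 1 < A ∧ A ^ 2 ≤ x := by
  filter_upwards [eventually_ge_atTop (A ^ 2)] with x hx using ⟨hA, hx⟩

lemma log_window : ∀ᶠ x in atTop, 1 < Real.log x ^ 3 ∧ (Real.log x ^ 3) ^ 2 ≤ x := by
  have h1 := (log_pow_little 6 (s := 1) one_pos).bound one_pos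
  have h2 := Real.tendsto_log_atTop.eventually_gt_atTop 1
  filter_upwards [h1, h2, eventually_gt_atTop 1] with x hx hl hx1
  refine ⟨one_lt_pow₀ hl (by norm_num), ?_⟩
  rw [Real.rpow_one, one_mul, Real.norm_of_nonneg (by positivity),
    Real.norm_of_nonneg (by linarith)] at hx
  calc (Real.log x ^ 3) ^ 2 = Real.log x ^ 6 := by ring
    _ ≤ x := hx

end Pool.Agent.C748Z
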