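import Mathlib

set_option autoImplicit false

namespace Pool.Agent.C748Z

open Set

/-- `m(x) = ∑_{n ≤ x} μ(n)/n`. -/
noncomputable def m (x : ℝ) : ℝ :=
  ∑ n ∈ Finset.Icc 1 ⌊x⌋₊, (ArithmeticFunction.moebius n : ℝ) / n

/-- `ψ(x) = ∑_{n ≤ x} Λ(n)`. -/
noncomputable def psi (x : ℝ) : ℝ :=
  ∑ n ∈ Finset.Icc 1 ⌊x⌋₊, ArithmeticFunction.vonMangoldt n

/-- `E_A(x) = sup_{x/A < y ≤ xA} |ψ(y) - y|/y`. -/
noncomputable def E (A x : ℝ) : ℝ :=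
  sSup ((fun y => |psi y - y| / y) '' Ioc (x / A) (x * A))

/-- `|m(x)| ≤ C (L(x) E_{A(x)}(x) + x^{-θ})` for all large `x`, for some `C > 0`. The window may
depend on `x`; in Q1 it does not, `L = 1` and `θ = 1/4`. -/
def Bound (A : ℝ → ℝ) (θ : ℝ) (L : ℝ → ℝ) : Prop :=
  ∃ C > 0, ∃ x₀ : ℝ, ∀ x ≥ x₀, |m x| ≤ C * (L x * E (A x) x + x ^ (-θ))

end Pool.Agent.C748Z
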